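import Pool.Agent.W737.SB.Defs

/-!
# SB-KAP, SB-DER
-/

set_option autoImplicit false

open Metric Set Pool.Agent.W737.SB

namespace Pool.Agent.W366.SB

theorem fr_sq (h : S_aut) {n : ℕ} {Ω : Set (V n)} {f F : V n → V n} {z : V n}
    (H : Fr Ω f F z) {a : V n} (ha : ‖a‖ < 1) :
    Pool.Agent.W737.SQ.Sq Ω (fun x => aut a (F x)) (fun y => f (aut a y)) 1 := by
  obtain ⟨h1, h2, h3, _⟩ := h n a ha
  refine ⟨h1.comp H.hF H.hFm, h2.comp H.hFm, H.hf.comp h1 h2, H.hfm.comp h2, ?_, ?_⟩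
  · intro x hx _
    show f (aut a (aut a (F x))) = x
    rw [h3 _ (H.hFm hx)]
    exact H.right x hx
  · intro y hy
    show aut a (F (f (aut a y))) = y
    rw [H.left _ (h2 hy)]
    exact h3 y hy

theorem t_kap (h : S_aut) : S_kap := by
  intro n Ω f F z hΩ H w hw v
  have haB := H.hFm hw
  have ha : ‖F w‖ < 1 := by simpa using haB
  obtain ⟨h1, h2, h3, h4, h5, h6, h7, h8⟩ := h n (F w) ha
  have S := fr_sq h H ha
  have h0 : (fun x => aut (F w) (F x)) w = 0 := h5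
  have e1 := S.center_car hΩ one_pos hw h0 v
  have e2 := Pool.Agent.W737.SQ.le_car hΩ hw v S.hf S.hfm
  have e3 : Pool.Agent.W737.SQ.Car Ω w v = ‖fderiv ℂ (fun x => aut (F w) (F x)) w v‖ := by
    refine le_antisymm ?_ e2
    linarith
  have a1 : HasFDerivAt (aut (F w)) (fderiv ℂ (aut (F w)) (F w)) (F w) :=
    (h1.differentiableAt (isOpen_ball.mem_nhds haB)).hasFDerivAt
  have a2 : HasFDerivAt F (fderiv ℂ F w) w :=
    (H.hF.differentiableAt (hΩ.mem_nhds hw)).hasFDerivAt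
  have a3 : fderiv ℂ (fun x => aut (F w) (F x)) w =
      (fderiv ℂ (aut (F w)) (F w)).comp (fderiv ℂ F w) := (a1.comp w a2).fderiv
  rw [e3, a3, ContinuousLinearMap.comp_apply, h8]
  rfl

theorem t_der : S_der := by
  intro n Ω f F z ν v hΩ H
  have hb0 : (0 : V n) ∈ ball (0 : V n) 1 := mem_ball_self one_pos
  have hz : z ∈ Ω := by rw [← H.base]; exact H.hfm hb0
  have hFz : F z = 0 := by rw [← H.base]; exact H.left 0 hb0
  have hC2 : ContDiffAt ℂ 2 F z :=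
    ((Pool.Agent.Helper540.contDiffOn_of_differentiableOn hΩ H.hF 2).contDiffAt
      (hΩ.mem_nhds hz))
  have hsymm : IsSymmSndFDerivAt ℂ F z := hC2.isSymmSndFDerivAt (by simp)
  have hF2 : DifferentiableAt ℂ (fderiv ℂ F) z :=
    (hC2.fderiv_right (m := 1) (by norm_num)).differentiableAt (by norm_num)
  -- directional derivatives
  have hdir : ∀ u : V n, HasFDerivAt (fun w => fderiv ℂ F w u)
      ((fderiv ℂ (fderiv ℂ F) z).flip u) z := by
    intro u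
    have := hF2.hasFDerivAt.clm_apply (hasFDerivAt_const u z)
    simpa using this
  have hFd : HasFDerivAt F (fderiv ℂ F z) z :=
    (H.hF.differentiableAt (hΩ.mem_nhds hz)).hasFDerivAt
  have hfd : HasFDerivAt f (fderiv ℂ f 0) 0 :=
    (H.hf.differentiableAt (isOpen_ball.mem_nhds hb0)).hasFDerivAt
  -- the derivative on the right hand side
  have hfF : fderiv ℂ f 0 (fderiv ℂ F z v) = v := by
    have h1 : HasFDerivAt (fun y => f (F y)) ((fderiv ℂ f 0).comp (fderiv ℂ F z)) z := by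
      have : HasFDerivAt f (fderiv ℂ f 0) (F z) := by rw [hFz]; exact hfd
      exact this.comp z hFd
    have h2 : (fun y => f (F y)) =ᶠ[nhds z] id := by
      filter_upwards [hΩ.mem_nhds hz] with y hy
      exact H.right y hy
    have h3 : HasFDerivAt (fun y => f (F y)) (ContinuousLinearMap.id ℂ (V n)) z :=
      (hasFDerivAt_id z).congr_of_eventuallyEq h2
    have h4 := congrArg (fun L => L v) (h1.unique h3)
    simpa using h4
  have hR : fderiv ℂ (fun x => fderiv ℂ F (f x) ν) 0 (fderiv ℂ F z v) =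
      fderiv ℂ (fderiv ℂ F) z ν v := by
    have h1 : HasFDerivAt (fun w => fderiv ℂ F w ν) ((fderiv ℂ (fderiv ℂ F) z).flip ν) (f 0) := by
      rw [H.base]; exact hdir ν
    have h2 : fderiv ℂ (fun x => fderiv ℂ F (f x) ν) 0 =
        ((fderiv ℂ (fderiv ℂ F) z).flip ν).comp (fderiv ℂ f 0) := (h1.comp (0 : V n) hfd).fderiv
    rw [h2, ContinuousLinearMap.comp_apply, hfF, ContinuousLinearMap.flip_apply]
    exact hsymm v ν
  rw [hR]
  set W : V n := fderiv ℂ (fderiv ℂ F) z ν v with hW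
  -- the line
  have hline : HasDerivAt (fun s : ℝ => z + (s : ℂ) • ν) ν 0 := by
    have h1 : HasDerivAt (fun s : ℝ => (s : ℂ)) 1 0 := by
      exact (hasDerivAt_id (0 : ℝ)).ofReal_comp
    have h2 := (h1.smul_const ν).const_add z
    simpa using h2
  have hz0 : z + (((0 : ℝ) : ℝ) : ℂ) • ν = z := by simp
  have hG : HasDerivAt (fun s : ℝ => F (z + (s : ℂ) • ν)) (fderiv ℂ F z ν) 0 := by
    have h1 : HasFDerivAt F ((fderiv ℂ F z).restrictScalars ℝ) (z + (((0 : ℝ) : ℝ) : ℂ) • ν) := by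
      rw [hz0]; exact hFd.restrictScalars ℝ
    exact h1.comp_hasDerivAt (0 : ℝ) hline
  have hD : HasDerivAt (fun s : ℝ => fderiv ℂ F (z + (s : ℂ) • ν) v) W 0 := by
    have h1 : HasFDerivAt (fun w => fderiv ℂ F w v)
        (((fderiv ℂ (fderiv ℂ F) z).flip v).restrictScalars ℝ) (z + (((0 : ℝ) : ℝ) : ℂ) • ν) := by
      rw [hz0]; exact (hdir v).restrictScalars ℝ
    exact h1.comp_hasDerivAt (0 : ℝ) hline
  have hG0 : F (z + (((0 : ℝ) : ℝ) : ℂ) • ν) = 0 := by rw [hz0, hFz]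
  have hD0 : fderiv ℂ F (z + (((0 : ℝ) : ℝ) : ℂ) • ν) v = fderiv ℂ F z v := by rw [hz0]
  -- inner products
  have hre : ∀ {c : ℝ → ℂ} {c' : ℂ} {x : ℝ}, HasDerivAt c c' x →
      HasDerivAt (fun s => (c s).re) c'.re x := by
    intro c c' x hc
    exact (Complex.reCLM.hasFDerivAt (x := c x)).comp_hasDerivAt x hc
  have him : ∀ {c : ℝ → ℂ} {c' : ℂ} {x : ℝ}, HasDerivAt c c' x →
      HasDerivAt (fun s => (c s).im) c'.im x := by
    intro c c' x hc
    exact (Complex.imCLM.hasFDerivAt (x := c x)).comp_hasDerivAt x hc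
  have hM : HasDerivAt (fun s : ℝ => ‖F (z + (s : ℂ) • ν)‖ ^ 2) 0 0 := by
    have h1 := hre (hG.inner ℂ hG)
    have h2 : (fun s : ℝ => ‖F (z + (s : ℂ) • ν)‖ ^ 2) =
        fun s : ℝ => (inner ℂ (F (z + (s : ℂ) • ν)) (F (z + (s : ℂ) • ν)) : ℂ).re := by
      funext s
      exact (inner_self_eq_norm_sq (𝕜 := ℂ) _).symm
    rw [h2]
    rw [hG0] at h1
    simpa using h1
  have hN : HasDerivAt (fun s : ℝ => ‖fderiv ℂ F (z + (s : ℂ) • ν) v‖ ^ 2)
      (2 * (inner ℂ (fderiv ℂ F z v) W : ℂ).re) 0 := by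
    have h1 := hre (hD.inner ℂ hD)
    have h2 : (fun s : ℝ => ‖fderiv ℂ F (z + (s : ℂ) • ν) v‖ ^ 2) =
        fun s : ℝ => (inner ℂ (fderiv ℂ F (z + (s : ℂ) • ν) v)
          (fderiv ℂ F (z + (s : ℂ) • ν) v) : ℂ).re := by
      funext s
      exact (inner_self_eq_norm_sq (𝕜 := ℂ) _).symm
    rw [h2]
    rw [hD0] at h1
    have h3 : (inner ℂ (fderiv ℂ F z v) W + inner ℂ W (fderiv ℂ F z v) : ℂ).re =
        2 * (inner ℂ (fderiv ℂ F z v) W : ℂ).re := by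
      rw [Complex.add_re, ← inner_conj_symm W (fderiv ℂ F z v), Complex.conj_re]
      ring
    rw [← h3]
    exact h1
  have hc := hG.inner ℂ hD
  have hP : HasDerivAt (fun s : ℝ => ‖(inner ℂ (F (z + (s : ℂ) • ν))
      (fderiv ℂ F (z + (s : ℂ) • ν) v) : ℂ)‖ ^ 2) 0 0 := by
    have h1 := ((hre hc).mul (hre hc)).add ((him hc).mul (him hc))
    have h2 : (fun s : ℝ => ‖(inner ℂ (F (z + (s : ℂ) • ν))
        (fderiv ℂ F (z + (s : ℂ) • ν) v) : ℂ)‖ ^ 2) =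
        fun s : ℝ => (inner ℂ (F (z + (s : ℂ) • ν)) (fderiv ℂ F (z + (s : ℂ) • ν) v) : ℂ).re *
          (inner ℂ (F (z + (s : ℂ) • ν)) (fderiv ℂ F (z + (s : ℂ) • ν) v) : ℂ).re +
          (inner ℂ (F (z + (s : ℂ) • ν)) (fderiv ℂ F (z + (s : ℂ) • ν) v) : ℂ).im *
          (inner ℂ (F (z + (s : ℂ) • ν)) (fderiv ℂ F (z + (s : ℂ) • ν) v) : ℂ).im := by
      funext s
      rw [← Complex.normSq_eq_norm_sq, Complex.normSq_apply]
    rw [h2]
    refine HasDerivAt.congr_deriv h1 ?_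
    rw [hG0]
    simp
  have hone : HasDerivAt (fun s : ℝ => 1 - ‖F (z + (s : ℂ) • ν)‖ ^ 2) 0 0 := by
    simpa using hM.const_sub 1
  have hval : (1 : ℝ) - ‖F (z + (((0 : ℝ) : ℝ) : ℂ) • ν)‖ ^ 2 = 1 := by
    rw [hG0]; simp
  have hne : (1 : ℝ) - ‖F (z + (((0 : ℝ) : ℝ) : ℂ) • ν)‖ ^ 2 ≠ 0 := by
    rw [hval]; norm_num
  have t1 := hN.div hone hne
  have t2 := hP.div (hone.pow 2) (pow_ne_zero 2 hne)
  have t3 := t1.add t2
  have hfin : (2 * (inner ℂ (fderiv ℂ F z v) W : ℂ).re *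
      (1 - ‖F (z + (((0 : ℝ) : ℝ) : ℂ) • ν)‖ ^ 2) -
      ‖fderiv ℂ F (z + (((0 : ℝ) : ℝ) : ℂ) • ν) v‖ ^ 2 * 0) /
      (1 - ‖F (z + (((0 : ℝ) : ℝ) : ℂ) • ν)‖ ^ 2) ^ 2 = 2 * (inner ℂ (fderiv ℂ F z v) W : ℂ).re := by
    rw [hval]; ring
  refine t3.congr_deriv ?_
  rw [hfin, hval, hG0]
  simp

end Pool.Agent.W366.SB
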